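import Mathlib

/-!
Lifting nowhere-zero `F₂³`-flows to dual flows, and to 8-cycle double covers of cubic graphs.
-/

namespace Pool.Agent.Helper98.CDC

open Finset

abbrev F3 := Fin 3 → ZMod 2

/-- `f` is a flow (values in a group of exponent two): zero sum over the ends at each vertex. -/
def IsFlow {V E A : Type*} [Fintype E] [DecidableEq V] [AddCommMonoid A]
    (s t : E → V) (f : E → A) : Prop :=
  ∀ v, ∑ e with s e = v, f e + ∑ e with t e = v, f e = 0

/-- The quadratic map with `⟨φ y + φ z, y + z⟩ = 1` for `y ≠ z`. -/
def phi (y : F3) : F3 :=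
  ![y 0 + y 1 + y 1 * y 2, y 1 + y 2 + y 0 * y 2, y 2 + y 0 + y 0 * y 1]

/-- The dot product. -/
def dot (y z : F3) : ZMod 2 := y 0 * z 0 + y 1 * z 1 + y 2 * z 2

theorem phi_aux : ∀ a b c d e f : ZMod 2, (a ≠ d ∨ b ≠ e ∨ c ≠ f) →
    ((a + b + b * c) + (d + e + e * f)) * (a + d) +
    ((b + c + a * c) + (e + f + d * f)) * (b + e) +
    ((c + a + a * b) + (f + d + d * e)) * (c + f) = 1 := by
  decide

theorem dot_phi (y z : F3) (h : y ≠ z) : dot (phi y + phi z) (y + z) = 1 := by
  have h' : y 0 ≠ z 0 ∨ y 1 ≠ z 1 ∨ y 2 ≠ z 2 := by
    by_contra hc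
    push Not at hc
    apply h
    funext i
    fin_cases i
    · exact hc.1
    · exact hc.2.1
    · exact hc.2.2
  have := phi_aux (y 0) (y 1) (y 2) (z 0) (z 1) (z 2) h'
  simpa [dot, phi] using this

theorem dot_add_left (a b c : F3) : dot (a + b) c = dot a c + dot b c := by
  simp only [dot, Pi.add_apply]; ring

theorem dot_add_right (a b c : F3) : dot a (b + c) = dot a b + dot a c := by
  simp only [dot, Pi.add_apply]; ring

theorem dot_zero_right (a : F3) : dot a 0 = 0 := by simp [dot]

theorem dot_zero_left (a : F3) : dot 0 a = 0 := by simp [dot]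

theorem dot_comm (a b : F3) : dot a b = dot b a := by
  simp only [dot]; ring

theorem dot_sum_right {ι : Type*} (S : Finset ι) (a : F3) (f : ι → F3) :
    dot a (∑ i ∈ S, f i) = ∑ i ∈ S, dot a (f i) := by
  classical
  induction S using Finset.induction_on with
  | empty => simp [dot]
  | insert i S hi ih => rw [Finset.sum_insert hi, Finset.sum_insert hi, dot_add_right, ih]

theorem add_self (a : F3) : a + a = 0 := by
  funext i
  exact CharTwo.add_self_eq_zero (a i)

section lift

variable {V E : Type*} [Fintype V] [Fintype E] [DecidableEq V] (s t : E → V)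

/-- The combinatorial core: potentials jumping only along `g` jump an even number of times. -/
theorem core (g : E → F3) (hg : ∀ e, g e ≠ 0) (hf : IsFlow s t g)
    (p : V → F3) (c : E → ZMod 2) (h : ∀ e, p (s e) + p (t e) = c e • g e) :
    ∑ e, c e = 0 := by
  have key : ∀ e, c e = dot (phi (p (s e))) (g e) + dot (phi (p (t e))) (g e) := by
    intro e
    rw [← dot_add_left]
    have hc : c e = 0 ∨ c e = 1 := by
      generalize c e = x
      revert x
      decide
    rcases hc with hc | hc
    · have h1 := h e
      rw [hc, zero_smul] at h1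
      have h2 : p (s e) = p (t e) := by
        have : p (s e) + p (t e) + p (t e) = p (t e) := by rw [h1, zero_add]
        rwa [add_assoc, add_self, add_zero] at this
      rw [h2, add_self, dot_zero_left, hc]
    · have h1 := h e
      rw [hc, one_smul] at h1
      rw [← h1, dot_phi, hc]
      intro h2
      rw [h2, add_self] at h1
      exact hg e h1.symm
  have hs : ∀ (r : E → V), ∑ e, dot (phi (p (r e))) (g e)
      = ∑ v, dot (phi (p v)) (∑ e with r e = v, g e) := by
    intro r
    simp_rw [dot_sum_right]
    rw [← Finset.sum_fiberwise (s := Finset.univ) (g := r)]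
    refine Finset.sum_congr rfl (fun v _ => Finset.sum_congr rfl (fun e he => ?_))
    rw [(Finset.mem_filter.1 he).2]
  rw [Finset.sum_congr rfl (fun e _ => key e), Finset.sum_add_distrib, hs s, hs t,
    ← Finset.sum_add_distrib]
  refine Finset.sum_eq_zero (fun v _ => ?_)
  rw [← dot_add_right, hf v, dot_zero_right]

/-- Every nowhere-zero `F₂³`-flow has a dual flow. -/
theorem lift_dual [DecidableEq E] (g : E → F3) (hg : ∀ e, g e ≠ 0) (hf : IsFlow s t g) :
    ∃ h : E → F3, IsFlow s t h ∧ ∀ e, dot (g e) (h e) = 1 := by
  let B : (E → F3) →ₗ[ZMod 2] (V → F3) × (E → ZMod 2) :=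
    { toFun := fun h => (fun v => ∑ e with s e = v, h e + ∑ e with t e = v, h e,
        fun e => dot (g e) (h e))
      map_add' := by
        intro x y
        ext v i
        · simp only [Pi.add_apply, Prod.fst_add, Finset.sum_add_distrib]
          ring
        · simp only [Prod.snd_add, Pi.add_apply, dot_add_right]
      map_smul' := by
        intro r x
        ext v i
        · simp [Finset.mul_sum, mul_add, Finset.sum_apply]
        · simp only [dot, Prod.smul_snd, Pi.smul_apply, smul_eq_mul, RingHom.id_apply]
          ring }
  by_cases hm : ((0 : V → F3), (fun _ => 1 : E → ZMod 2)) ∈ LinearMap.range B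
  · obtain ⟨h, hh⟩ := hm
    refine ⟨h, fun v => ?_, fun e => ?_⟩
    · exact congrFun (congrArg Prod.fst hh) v
    · exact congrFun (congrArg Prod.snd hh) e
  · exfalso
    obtain ⟨ψ, hψ1, hψ2⟩ := Submodule.exists_le_ker_of_notMem hm
    -- the functional in coordinates
    let p : V → F3 := fun v i => ψ (Pi.single v (Pi.single i 1), 0)
    let c : E → ZMod 2 := fun e => ψ (0, Pi.single e 1)
    have hψ : ∀ h : E → F3, ψ (B h) = 0 := by
      intro h
      exact hψ2 (LinearMap.mem_range_self B h)
    have h1 : ∀ e, p (s e) + p (t e) = c e • g e := by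
      intro e
      funext i
      have := hψ (Pi.single e (Pi.single i 1))
      have hB : B (Pi.single e (Pi.single i 1)) =
          (Pi.single (s e) (Pi.single i 1), 0) + (Pi.single (t e) (Pi.single i 1), 0)
            + (g e i) • (0, Pi.single e 1) := by
        have hsum : ∀ (r : E → V) (v : V), ∑ x with r x = v, (Pi.single e (Pi.single i 1) : E → F3) x
            = (Pi.single (r e) (Pi.single i 1) : V → F3) v := by
          intro r v
          by_cases hv : r e = v
          · subst hv
            rw [Pi.single_eq_same, Finset.sum_eq_single e]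
            · rw [Pi.single_eq_same]
            · intro b _ hb
              rw [Pi.single_eq_of_ne hb]
            · intro hn
              exact absurd (by simp) hn
          · rw [Pi.single_eq_of_ne (Ne.symm hv)]
            refine Finset.sum_eq_zero (fun x hx => ?_)
            have : x ≠ e := by
              rintro rfl
              exact hv (Finset.mem_filter.1 hx).2
            rw [Pi.single_eq_of_ne this]
        ext v j
        · simp only [B, LinearMap.coe_mk, AddHom.coe_mk, hsum]
          simp
        · simp only [B, LinearMap.coe_mk, AddHom.coe_mk]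
          simp only [Prod.snd_add, Prod.smul_snd, add_zero, zero_add, Pi.smul_apply, smul_eq_mul]
          by_cases hv : v = e
          · subst hv
            rw [Pi.single_eq_same, Pi.single_eq_same]
            fin_cases i <;> simp [dot]
          · rw [Pi.single_eq_of_ne hv, Pi.single_eq_of_ne hv, dot_zero_right, mul_zero]
      rw [hB, map_add, map_add, map_smul] at this
      have h2 : p (s e) i + p (t e) i + g e i * c e = 0 := this
      show p (s e) i + p (t e) i = c e * g e i
      have h3 : ∀ a b : ZMod 2, a + b = 0 → a = b := by decide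
      rw [mul_comm]
      exact h3 _ _ h2
    have h2 := core s t g hg hf p c h1
    apply hψ1
    have : ((0 : V → F3), (fun _ => 1 : E → ZMod 2)) = ∑ e, ((0 : V → F3), (Pi.single e 1 : E → ZMod 2)) := by
      ext v
      · simp [Prod.fst_sum]
      · simp [Prod.snd_sum, Finset.sum_apply, Pi.single_apply]
    rw [this, map_sum]
    exact h2

end lift

end Pool.Agent.Helper98.CDC
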