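import Mathlib
import Pool.Agent.Helper98.CDC.Lift

namespace Pool.Agent.Helper98.CDC

open Finset

/-- the cross product over `ZMod 2` -/
def cr (a g : F3) : F3 := ![a 1 * g 2 + a 2 * g 1, a 0 * g 2 + a 2 * g 0, a 0 * g 1 + a 1 * g 0]

theorem phi_add (a g : F3) : phi (a + g) = phi a + phi g + cr a g := by
  funext i
  fin_cases i <;> simp [phi, cr] <;> ring

theorem cr_add (a g h : F3) : cr a (g + h) = cr a g + cr a h := by
  funext i
  fin_cases i <;> simp [cr] <;> ring

theorem dot_cr (a g : F3) : dot g (cr a g) = 0 := by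
  have : ∀ a b c d e f : ZMod 2, d * (b * f + c * e) + e * (a * f + c * d) + f * (a * e + b * d) = 0 := by
    decide
  exact this (a 0) (a 1) (a 2) (g 0) (g 1) (g 2)

/-- indicator that the label `0` lies in the pair coded by `(g, h)` -/
def chi (g h : F3) : ZMod 2 := if h = phi g then 1 else 0

theorem base_aux : ∀ a b c d e f a' b' c' d' e' f' : ZMod 2,
    a * d + b * e + c * f = 1 → a' * d' + b' * e' + c' * f' = 1 →
    (a + a') * (d + d') + (b + b') * (e + e') + (c + c') * (f + f') = 1 →
    (if (d = a + b + b * c ∧ e = b + c + a * c ∧ f = c + a + a * b) then (1 : ZMod 2) else 0) +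
    (if (d' = a' + b' + b' * c' ∧ e' = b' + c' + a' * c' ∧ f' = c' + a' + a' * b') then (1 : ZMod 2)
      else 0) +
    (if (d + d' = (a + a') + (b + b') + (b + b') * (c + c') ∧
        e + e' = (b + b') + (c + c') + (a + a') * (c + c') ∧
        f + f' = (c + c') + (a + a') + (a + a') * (b + b')) then (1 : ZMod 2) else 0) = 0 := by
  decide +kernel

theorem chi_base (g1 h1 g2 h2 : F3) (H1 : dot g1 h1 = 1) (H2 : dot g2 h2 = 1)
    (H3 : dot (g1 + g2) (h1 + h2) = 1) :
    chi g1 h1 + chi g2 h2 + chi (g1 + g2) (h1 + h2) = 0 := by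
  have h := base_aux (g1 0) (g1 1) (g1 2) (h1 0) (h1 1) (h1 2) (g2 0) (g2 1) (g2 2)
    (h2 0) (h2 1) (h2 2) H1 H2 H3
  have e : ∀ g h : F3, chi g h = if (h 0 = g 0 + g 1 + g 1 * g 2 ∧ h 1 = g 1 + g 2 + g 0 * g 2 ∧
      h 2 = g 2 + g 0 + g 0 * g 1) then 1 else 0 := by
    intro g h
    unfold chi
    congr 1
    apply propext
    constructor
    · rintro rfl
      exact ⟨rfl, rfl, rfl⟩
    · rintro ⟨x, y, z⟩
      funext i
      fin_cases i
      · exact x
      · exact y
      · exact z
  rw [e, e, e]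
  simpa using h

/-- Three coded pairs with sum zero: the label `a` lies in an even number of them. -/
theorem chi_three (a g1 h1 g2 h2 g3 h3 : F3) (H1 : dot g1 h1 = 1) (H2 : dot g2 h2 = 1)
    (H3 : dot g3 h3 = 1) (hg : g1 + g2 + g3 = 0) (hh : h1 + h2 + h3 = 0) :
    chi g1 (h1 + cr a g1) + chi g2 (h2 + cr a g2) + chi g3 (h3 + cr a g3) = 0 := by
  have e0 : ∀ x y z : F3, x + y + z = 0 → z = x + y := by
    intro x y z h
    have : x + y + z + z = z := by rw [h, zero_add]
    rw [add_assoc, add_self, add_zero] at this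
    exact this.symm
  have hg' := e0 _ _ _ hg
  have hh' := e0 _ _ _ hh
  subst hg' hh'
  have hc : h1 + h2 + cr a (g1 + g2) = (h1 + cr a g1) + (h2 + cr a g2) := by
    rw [cr_add]; abel
  rw [hc]
  apply chi_base
  · rw [dot_add_right, dot_cr, add_zero, H1]
  · rw [dot_add_right, dot_cr, add_zero, H2]
  · rw [← hc, dot_add_right, dot_cr, add_zero, H3]

theorem count_aux : ∀ a b c d e f : ZMod 2, a * d + b * e + c * f = 1 →
    (Finset.univ.filter (fun x : ZMod 2 × ZMod 2 × ZMod 2 =>
      d + (x.2.1 * c + x.2.2 * b) = a + b + b * c ∧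
      e + (x.1 * c + x.2.2 * a) = b + c + a * c ∧
      f + (x.1 * b + x.2.1 * a) = c + a + a * b)).card = 2 := by
  decide +kernel

/-- Each coded pair contains exactly two labels. -/
theorem count_labels (g h : F3) (H : dot g h = 1) :
    (Finset.univ.filter (fun a : F3 => h + cr a g = phi g)).card = 2 := by
  refine Eq.trans ?_ (count_aux (g 0) (g 1) (g 2) (h 0) (h 1) (h 2) H)
  refine Finset.card_bij (fun a _ => (a 0, a 1, a 2)) ?_ ?_ ?_
  · intro a ha
    have h1 := (Finset.mem_filter.1 ha).2
    refine Finset.mem_filter.2 ⟨Finset.mem_univ _, ?_, ?_, ?_⟩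
    · exact congrFun h1 0
    · exact congrFun h1 1
    · exact congrFun h1 2
  · intro a _ b _ hab
    have h1 : a 0 = b 0 := congrArg Prod.fst hab
    have h2 : a 1 = b 1 := congrArg (fun x => x.2.1) hab
    have h3 : a 2 = b 2 := congrArg (fun x => x.2.2) hab
    funext i
    fin_cases i
    · exact h1
    · exact h2
    · exact h3
  · intro x hx
    have h1 := (Finset.mem_filter.1 hx).2
    refine ⟨![x.1, x.2.1, x.2.2], Finset.mem_filter.2 ⟨Finset.mem_univ _, ?_⟩, rfl⟩
    funext i
    fin_cases i
    · exact h1.1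
    · exact h1.2.1
    · exact h1.2.2

section cubic

variable {V E : Type*} [Fintype E] [DecidableEq V] (s t : E → V)

/-- Sums over the ends at a vertex, in the case of three ends. -/
theorem three_ends (v : V)
    (hv : (univ.filter (fun e => s e = v)).card + (univ.filter (fun e => t e = v)).card = 3) :
    ∃ e1 e2 e3 : E, ∀ {A : Type} [AddCommMonoid A] (f : E → A),
      ∑ e with s e = v, f e + ∑ e with t e = v, f e = f e1 + f e2 + f e3 := by
  have hsum : ∀ {A : Type} [AddCommMonoid A] (f : E → A),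
      ∑ e with s e = v, f e + ∑ e with t e = v, f e
      = ((univ.filter (fun e => s e = v)).val.map f + (univ.filter (fun e => t e = v)).val.map f).sum := by
    intro A _ f
    rw [Multiset.sum_add]
    rfl
  have hc : ((univ.filter (fun e => s e = v)).val + (univ.filter (fun e => t e = v)).val).card = 3 := by
    rw [Multiset.card_add]
    exact hv
  obtain ⟨e1, e2, e3, h⟩ := Multiset.card_eq_three.1 hc
  refine ⟨e1, e2, e3, fun f => ?_⟩
  rw [hsum, ← Multiset.map_add, h]
  simp [add_assoc]

theorem cr_shift (a g : F3) : cr (a + g) g = cr a g := by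
  have : ∀ a b c d e f : ZMod 2, (b + e) * f + (c + f) * e = b * f + c * e ∧
      (a + d) * f + (c + f) * d = a * f + c * d ∧ (a + d) * e + (b + e) * d = a * e + b * d := by
    decide
  obtain ⟨h0, h1, h2⟩ := this (a 0) (a 1) (a 2) (g 0) (g 1) (g 2)
  funext i
  fin_cases i
  · exact h0
  · exact h1
  · exact h2

/-- From a nowhere-zero `F₂³`-flow of a cubic graph to eight even subgraphs covering every edge
exactly twice (labels in `F₂³`). -/
theorem cubic_labels [Fintype V] [DecidableEq E] (hcub : ∀ v, (univ.filter (fun e => s e = v)).card +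
      (univ.filter (fun e => t e = v)).card = 3)
    (g : E → F3) (hg : ∀ e, g e ≠ 0) (hf : IsFlow s t g) :
    ∃ D : F3 → Finset E, (∀ a v, Even (((D a).filter (fun e => s e = v)).card +
      ((D a).filter (fun e => t e = v)).card)) ∧
      (∀ e, (univ.filter (fun a => e ∈ D a)).card = 2) ∧ ∀ e a, e ∈ D a → e ∈ D (a + g e) := by
  obtain ⟨h, hh, hgh⟩ := lift_dual s t g hg hf
  refine ⟨fun a => univ.filter (fun e => h e + cr a (g e) = phi (g e)), ?_, ?_, ?_⟩
  · intro a v
    obtain ⟨e1, e2, e3, H⟩ := three_ends s t v (hcub v)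
    have h1 := chi_three a (g e1) (h e1) (g e2) (h e2) (g e3) (h e3) (hgh e1) (hgh e2) (hgh e3)
      ((H g).symm.trans (hf v)) ((H h).symm.trans (hh v))
    have h2 := H (fun e => chi (g e) (h e + cr a (g e)))
    rw [h1] at h2
    rw [← ZMod.natCast_eq_zero_iff_even, Nat.cast_add, ← h2]
    congr 1
    · rw [Finset.filter_filter, Finset.sum_filter, Finset.card_filter, Nat.cast_sum]
      refine Finset.sum_congr rfl (fun e _ => ?_)
      by_cases h3 : s e = v <;> simp [h3, chi]
    · rw [Finset.filter_filter, Finset.sum_filter, Finset.card_filter, Nat.cast_sum]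
      refine Finset.sum_congr rfl (fun e _ => ?_)
      by_cases h3 : t e = v <;> simp [h3, chi]
  · intro e
    refine Eq.trans ?_ (count_labels (g e) (h e) (hgh e))
    congr 1
    ext a
    simp
  · intro e a ha
    rw [Finset.mem_filter] at ha ⊢
    refine ⟨Finset.mem_univ _, ?_⟩
    rw [cr_shift]
    exact ha.2

end cubic

end Pool.Agent.Helper98.CDC
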