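import Mathlib

/-!
Rado's theorem for vectors (Welsh's proof) and the Rado-Horn colouring theorem.
-/

namespace Pool.Agent.Helper98.CDC

open Finset Module

variable {K : Type*} [Field K]

/-- Rado's theorem: a family of finite sets of vectors has a linearly independent system of
representatives provided the span of any `m` of the sets has dimension at least `m`. -/
theorem rado {ι Y : Type*} [Fintype ι] [DecidableEq ι] [DecidableEq Y] [AddCommGroup Y]
    [Module K Y] [FiniteDimensional K Y] (n : ℕ) :
    ∀ (A : ι → Finset Y) (_ : ∑ i, (A i).card = n)
    (_ : ∀ J : Finset ι, J.card ≤ finrank K (Submodule.span K (J.biUnion A : Set Y))),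
    ∃ f : ι → Y, (∀ i, f i ∈ A i) ∧ LinearIndependent K f := by
  induction n using Nat.strong_induction_on with
  | _ n ih =>
    intro A hn h
    by_cases hA : ∀ i, (A i).card ≤ 1
    · -- all sets are singletons
      have hA1 : ∀ i, ∃ y, A i = {y} := by
        intro i
        rw [← Finset.card_eq_one]
        refine le_antisymm (hA i) ?_
        have h1 := h {i}
        rw [Finset.card_singleton, Finset.singleton_biUnion] at h1
        by_contra hc
        have : (A i).card = 0 := by omega
        rw [Finset.card_eq_zero] at this
        rw [this, Finset.coe_empty, Submodule.span_empty, finrank_bot] at h1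
        omega
      choose f hf using hA1
      refine ⟨f, fun i => by rw [hf]; exact Finset.mem_singleton_self _, ?_⟩
      rw [linearIndependent_iff_card_le_finrank_span]
      have h1 := h Finset.univ
      have h2 : ((Finset.univ.biUnion A : Finset Y) : Set Y) = Set.range f := by
        ext y
        simp only [Finset.coe_biUnion, Finset.mem_coe, Finset.mem_univ, Set.iUnion_true,
          Set.mem_iUnion, Set.mem_range, hf, Finset.mem_singleton]
        exact ⟨fun ⟨i, hi⟩ => ⟨i, hi.symm⟩, fun ⟨i, hi⟩ => ⟨i, hi.symm⟩⟩
      rw [h2] at h1
      exact h1
    · push Not at hA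
      obtain ⟨i0, hi0⟩ := hA
      obtain ⟨x, hx, y, hy, hxy⟩ := Finset.one_lt_card.1 hi0
      -- deleting an element from `A i0`
      have step : ∀ z ∈ A i0, (∀ J : Finset ι, J.card ≤
          finrank K (Submodule.span K (J.biUnion (Function.update A i0 ((A i0).erase z)) : Set Y))) →
          ∃ f : ι → Y, (∀ i, f i ∈ A i) ∧ LinearIndependent K f := by
        intro z hz hJ
        have hlt : ∑ i, (Function.update A i0 ((A i0).erase z) i).card < n := by
          rw [← hn]
          apply Finset.sum_lt_sum
          · intro i _
            by_cases hi : i = i0
            · subst hi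
              rw [Function.update_self]
              exact Finset.card_le_card (Finset.erase_subset _ _)
            · rw [Function.update_of_ne hi]
          · refine ⟨i0, Finset.mem_univ _, ?_⟩
            rw [Function.update_self]
            exact Finset.card_erase_lt_of_mem hz
        obtain ⟨f, hf1, hf2⟩ := ih _ hlt _ rfl hJ
        refine ⟨f, fun i => ?_, hf2⟩
        have := hf1 i
        by_cases hi : i = i0
        · subst hi
          rw [Function.update_self] at this
          exact Finset.mem_of_mem_erase this
        · rwa [Function.update_of_ne hi] at this
      by_contra hcon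
      have hbad : ∀ z ∈ A i0, ∃ J : Finset ι, i0 ∉ J ∧
          finrank K (Submodule.span K (((A i0).erase z ∪ J.biUnion A : Finset Y) : Set Y)) ≤ J.card := by
        intro z hz
        by_contra hc
        push Not at hc
        apply hcon
        apply step z hz
        intro J
        by_cases hJ : i0 ∈ J
        · have h1 := hc (J.erase i0) (Finset.notMem_erase _ _)
          have h2 : (J.erase i0).card + 1 = J.card := Finset.card_erase_add_one hJ
          have h3 : J.biUnion (Function.update A i0 ((A i0).erase z)) =
              (A i0).erase z ∪ (J.erase i0).biUnion A := by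
            conv_lhs => rw [← Finset.insert_erase hJ]
            rw [Finset.biUnion_insert, Function.update_self]
            congr 1
            refine Finset.biUnion_congr rfl (fun i hi => ?_)
            rw [Function.update_of_ne (Finset.ne_of_mem_erase hi)]
          rw [h3]
          omega
        · have h3 : J.biUnion (Function.update A i0 ((A i0).erase z)) = J.biUnion A := by
            refine Finset.biUnion_congr rfl (fun i hi => ?_)
            rw [Function.update_of_ne]
            rintro rfl
            exact hJ hi
          rw [h3]
          exact h J
      obtain ⟨J1, hJ1, hP⟩ := hbad x hx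
      obtain ⟨J2, hJ2, hQ⟩ := hbad y hy
      set P := Submodule.span K (((A i0).erase x ∪ J1.biUnion A : Finset Y) : Set Y) with hPdef
      set Q := Submodule.span K (((A i0).erase y ∪ J2.biUnion A : Finset Y) : Set Y) with hQdef
      have hsup : (insert i0 (J1 ∪ J2)).card ≤ finrank K (P ⊔ Q : Submodule K Y) := by
        refine le_trans (h _) (Submodule.finrank_mono ?_)
        rw [Submodule.span_le]
        intro u hu
        have hu' : u ∈ (insert i0 (J1 ∪ J2)).biUnion A := hu
        rw [Finset.mem_biUnion] at hu'
        obtain ⟨i, hi, hui⟩ := hu'
        rw [Finset.mem_insert, Finset.mem_union] at hi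
        rcases hi with rfl | hi | hi
        · by_cases hux : u = x
          · subst hux
            apply Submodule.mem_sup_right
            apply Submodule.subset_span
            rw [Finset.mem_coe, Finset.mem_union]
            exact Or.inl (Finset.mem_erase.2 ⟨hxy, hui⟩)
          · apply Submodule.mem_sup_left
            apply Submodule.subset_span
            rw [Finset.mem_coe, Finset.mem_union]
            exact Or.inl (Finset.mem_erase.2 ⟨hux, hui⟩)
        · apply Submodule.mem_sup_left
          apply Submodule.subset_span
          rw [Finset.mem_coe, Finset.mem_union]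
          exact Or.inr (Finset.mem_biUnion.2 ⟨i, hi, hui⟩)
        · apply Submodule.mem_sup_right
          apply Submodule.subset_span
          rw [Finset.mem_coe, Finset.mem_union]
          exact Or.inr (Finset.mem_biUnion.2 ⟨i, hi, hui⟩)
      have hinf : (J1 ∩ J2).card ≤ finrank K (P ⊓ Q : Submodule K Y) := by
        refine le_trans (h _) (Submodule.finrank_mono ?_)
        rw [Submodule.span_le]
        intro u hu
        have hu' : u ∈ (J1 ∩ J2).biUnion A := hu
        rw [Finset.mem_biUnion] at hu'
        obtain ⟨i, hi, hui⟩ := hu'
        rw [Finset.mem_inter] at hi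
        refine ⟨?_, ?_⟩
        · apply Submodule.subset_span
          rw [Finset.mem_coe, Finset.mem_union]
          exact Or.inr (Finset.mem_biUnion.2 ⟨i, hi.1, hui⟩)
        · apply Submodule.subset_span
          rw [Finset.mem_coe, Finset.mem_union]
          exact Or.inr (Finset.mem_biUnion.2 ⟨i, hi.2, hui⟩)
      have hsub := Submodule.finrank_sup_add_finrank_inf_eq P Q
      have hcard : (insert i0 (J1 ∪ J2)).card = (J1 ∪ J2).card + 1 := by
        apply Finset.card_insert_of_notMem
        rw [Finset.mem_union]
        tauto
      have hcard2 := Finset.card_union_add_card_inter J1 J2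
      omega

/-- Rado-Horn: if every subfamily `J` has at most `k` times its rank many elements, then the family
can be coloured by `k` colours with linearly independent colour classes. -/
theorem rado_horn {ι X : Type*} [Fintype ι] [AddCommGroup X]
    [Module K X] [FiniteDimensional K X] (k : ℕ) (x : ι → X)
    (h : ∀ J : Finset ι, J.card ≤ k * finrank K (Submodule.span K (x '' J))) :
    ∃ κ : ι → Fin k, ∀ i, LinearIndependent K (fun e : {e // κ e = i} => x e) := by
  classical
  let A : ι → Finset (Fin k → X) := fun e => Finset.univ.image (fun i => Pi.single i (x e))
  have hA : ∀ J : Finset ι, J.card ≤ finrank K (Submodule.span K (J.biUnion A : Set (Fin k → X))) := by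
    intro J
    refine le_trans (h J) ?_
    set S := Submodule.span K (x '' J) with hS
    -- the space `Fin k → S` injects in the span
    let L : (Fin k → S) →ₗ[K] (Fin k → X) := LinearMap.compLeft S.subtype (Fin k)
    have hL : Function.Injective L := by
      intro u v huv
      funext i
      apply Subtype.ext
      exact congrFun huv i
    have hr : LinearMap.range L ≤ Submodule.span K (J.biUnion A : Set (Fin k → X)) := by
      rintro _ ⟨u, rfl⟩
      have hu : L u = ∑ i, Pi.single i ((u i : S) : X) := by
        funext j
        rw [Finset.sum_apply]
        simp [L, Pi.single_apply]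
      rw [hu]
      refine Submodule.sum_mem _ (fun i _ => ?_)
      have h1 : S ≤ (Submodule.span K (J.biUnion A : Set (Fin k → X))).comap
          (LinearMap.single K (fun _ => X) i) := by
        rw [hS, Submodule.span_le]
        rintro _ ⟨e, he, rfl⟩
        apply Submodule.subset_span
        rw [Finset.mem_coe, Finset.mem_biUnion]
        exact ⟨e, he, Finset.mem_image.2 ⟨i, Finset.mem_univ _, rfl⟩⟩
      exact h1 (u i).2
    calc k * finrank K S = finrank K (Fin k → S) := by
          rw [Module.finrank_pi_fintype]
          simp
      _ = finrank K (LinearMap.range L) := (LinearMap.finrank_range_of_inj hL).symm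
      _ ≤ _ := Submodule.finrank_mono hr
  obtain ⟨f, hf, hli⟩ := rado (K := K) _ A rfl hA
  have hf' : ∀ e, ∃ i : Fin k, Pi.single i (x e) = f e := by
    intro e
    obtain ⟨i, _, hi⟩ := Finset.mem_image.1 (hf e)
    exact ⟨i, hi⟩
  choose κ hκ using hf'
  refine ⟨κ, fun i => ?_⟩
  have h1 : LinearIndependent K (fun e : {e // κ e = i} => f e) :=
    hli.comp _ Subtype.val_injective
  have h2 : (fun e : {e // κ e = i} => f e) =
      (LinearMap.single K (fun _ => X) i) ∘ (fun e : {e // κ e = i} => x e) := by
    funext e
    rw [← hκ e, Function.comp_apply, e.2]
    rfl
  rw [h2] at h1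
  exact LinearIndependent.of_comp _ h1

end Pool.Agent.Helper98.CDC
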