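import Mathlib
import Pool.Agent.Helper98.CDC.Lift
import Pool.Agent.Helper98.CDC.Rado

/-!
The 8-flow theorem (Jaeger, Kilpatrick): every bridgeless multigraph has a nowhere-zero
`F₂³`-flow; proof by the Rado-Horn theorem.
-/

namespace Pool.Agent.Helper98.CDC

open Finset Module

section

variable {V E : Type*} [Fintype V] [Fintype E] [DecidableEq V] (s t : E → V)

/-- The cycle space. -/
def cyc : Submodule (ZMod 2) (E → ZMod 2) where
  carrier := {z | IsFlow s t z}
  zero_mem' := by intro v; simp
  add_mem' := by
    intro a b ha hb v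
    simp only [Pi.add_apply, Finset.sum_add_distrib]
    have h1 := ha v
    have h2 := hb v
    calc _ = (∑ e with s e = v, a e + ∑ e with t e = v, a e) +
        (∑ e with s e = v, b e + ∑ e with t e = v, b e) := by ring
      _ = 0 := by rw [h1, h2, add_zero]
  smul_mem' := by
    intro c a ha v
    simp only [Pi.smul_apply, smul_eq_mul, ← Finset.mul_sum, ← mul_add]
    rw [ha v, mul_zero]

omit [Fintype V] in
theorem mem_cyc (z : E → ZMod 2) : z ∈ cyc s t ↔ IsFlow s t z := Iff.rfl

omit [Fintype V] in
/-- A vector orthogonal to the cycle space is a coboundary. -/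
theorem exists_potential [DecidableEq E] (c : E → ZMod 2)
    (hc : ∀ z ∈ cyc s t, ∑ e, c e * z e = 0) :
    ∃ p : V → ZMod 2, ∀ e, c e = p (s e) + p (t e) := by
  -- the coboundary map
  let D : (V → ZMod 2) →ₗ[ZMod 2] (E → ZMod 2) :=
    { toFun := fun p e => p (s e) + p (t e)
      map_add' := by intro p q; funext e; simp only [Pi.add_apply]; ring
      map_smul' := by intro r p; funext e; simp only [Pi.smul_apply, smul_eq_mul, RingHom.id_apply]; ring }
  by_cases hm : c ∈ LinearMap.range D
  · obtain ⟨p, hp⟩ := hm
    exact ⟨p, fun e => (congrFun hp e).symm⟩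
  · exfalso
    obtain ⟨ψ, hψ1, hψ2⟩ := Submodule.exists_le_ker_of_notMem hm
    let z : E → ZMod 2 := fun e => ψ (Pi.single e 1)
    have hψ : ∀ w : E → ZMod 2, ψ w = ∑ e, w e * z e := by
      intro w
      have : w = ∑ e, w e • (Pi.single e 1 : E → ZMod 2) := by
        funext x
        simp [Finset.sum_apply, Pi.single_apply]
      conv_lhs => rw [this]
      rw [map_sum]
      exact Finset.sum_congr rfl (fun e _ => by rw [map_smul]; rfl)
    apply hψ1
    rw [hψ]
    apply hc
    intro v
    have h1 : ψ (D (Pi.single v 1)) = 0 := hψ2 (LinearMap.mem_range_self D _)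
    rw [hψ] at h1
    rw [← h1, Finset.sum_filter, Finset.sum_filter, ← Finset.sum_add_distrib]
    refine Finset.sum_congr rfl (fun e _ => ?_)
    show _ = ((Pi.single v 1 : V → ZMod 2) (s e) + (Pi.single v 1 : V → ZMod 2) (t e)) * z e
    rw [Pi.single_apply, Pi.single_apply, add_mul, ite_mul, ite_mul]
    simp

/-- no cut with exactly one edge -/
def NoBridge : Prop :=
  ∀ X : Finset V, (univ.filter (fun e => (s e ∈ X) ≠ (t e ∈ X))).card ≠ 1

omit [Fintype V] in
/-- Every cut is orthogonal to the cycle space. -/
theorem cut_orth (X : Finset V) (z : E → ZMod 2) (hz : IsFlow s t z) :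
    ∑ e with ((s e ∈ X) ≠ (t e ∈ X)), z e = 0 := by
  classical
  have h1 : ∑ v ∈ X, (∑ e with s e = v, z e + ∑ e with t e = v, z e) = 0 :=
    Finset.sum_eq_zero (fun v _ => hz v)
  rw [Finset.sum_add_distrib] at h1
  have h2 : ∀ r : E → V, ∑ v ∈ X, ∑ e with r e = v, z e = ∑ e, if r e ∈ X then z e else 0 := by
    intro r
    simp_rw [Finset.sum_filter]
    rw [Finset.sum_comm]
    refine Finset.sum_congr rfl (fun e _ => ?_)
    rw [Finset.sum_ite_eq]
  rw [h2 s, h2 t, ← Finset.sum_add_distrib] at h1
  rw [Finset.sum_filter]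
  refine Eq.trans (Finset.sum_congr rfl (fun e _ => ?_)) h1
  by_cases ha : s e ∈ X <;> by_cases hb : t e ∈ X <;> simp [ha, hb, CharTwo.add_self_eq_zero]

/-- The counting lemma: if all edges of `F` are pairwise not in series, the space of cuts inside `F`
has dimension at most `2|F|/3`. -/
theorem cut_dim [DecidableEq E] (hb : NoBridge s t) (F : Finset E)
    (hF : ∀ e ∈ F, ∀ f ∈ F, (∀ z ∈ cyc s t, z e = z f) → e = f)
    (S : Submodule (ZMod 2) (E → ZMod 2))
    (hS : ∀ c ∈ S, (∀ e, e ∉ F → c e = 0) ∧ ∀ z ∈ cyc s t, ∑ e, c e * z e = 0) :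
    3 * finrank (ZMod 2) S ≤ 2 * F.card := by
  classical
  -- components of the graph without `F`
  let st : Setoid V := Relation.EqvGen.setoid (fun u w => ∃ e, e ∉ F ∧ s e = u ∧ t e = w)
  let Q := Quotient st
  let cl : V → Q := fun v => Quotient.mk st v
  have : Fintype Q := Fintype.ofFinite Q
  let d : Q → (E → ZMod 2) := fun A e =>
    (if cl (s e) = A then 1 else 0) + (if cl (t e) = A then 1 else 0)
  have hcl : ∀ e, e ∉ F → cl (s e) = cl (t e) := by
    intro e he
    exact Quotient.sound (Relation.EqvGen.rel _ _ ⟨e, he, rfl, rfl⟩)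
  let T : Finset Q := univ.filter (fun A => d A ≠ 0)
  -- `S` is contained in the span of the `d A`
  have hspan : S ≤ Submodule.span (ZMod 2) ((T.image d : Finset (E → ZMod 2)) : Set (E → ZMod 2)) := by
    intro c hcS
    obtain ⟨hc1, hc2⟩ := hS c hcS
    obtain ⟨p, hp⟩ := exists_potential s t c hc2
    have hpc : ∀ u w, st.r u w → p u = p w := by
      intro u w huw
      induction huw with
      | rel x y h =>
        obtain ⟨e, he, rfl, rfl⟩ := h
        have h1 := hp e
        rw [hc1 e he] at h1
        have h3 : ∀ a b : ZMod 2, 0 = a + b → a = b := by decide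
        exact h3 _ _ h1
      | refl x => rfl
      | symm x y _ ih => exact ih.symm
      | trans x y z _ _ ih1 ih2 => exact ih1.trans ih2
    let p' : Q → ZMod 2 := Quotient.lift p hpc
    have hsingle : ∀ a : Q, ∑ A : Q, p' A * (if a = A then (1 : ZMod 2) else 0) = p' a := by
      intro a
      rw [Finset.sum_eq_single a]
      · rw [if_pos rfl, mul_one]
      · intro b _ hb
        rw [if_neg (Ne.symm hb), mul_zero]
      · intro h
        exact absurd (Finset.mem_univ a) h
    have hcd : c = ∑ A, p' A • d A := by
      funext e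
      rw [hp e, Finset.sum_apply]
      simp only [d, Pi.smul_apply, smul_eq_mul, mul_add, Finset.sum_add_distrib]
      rw [hsingle, hsingle]
      rfl
    rw [hcd]
    refine Submodule.sum_mem _ (fun A _ => ?_)
    by_cases hA : d A = 0
    · rw [hA, smul_zero]
      exact Submodule.zero_mem _
    · apply Submodule.smul_mem
      apply Submodule.subset_span
      rw [Finset.mem_coe]
      exact Finset.mem_image_of_mem d (Finset.mem_filter.2 ⟨Finset.mem_univ _, hA⟩)
  have h1 : finrank (ZMod 2) S ≤ T.card := by
    refine le_trans (Submodule.finrank_mono hspan) ?_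
    refine le_trans (finrank_span_finset_le_card _) ?_
    exact Finset.card_image_le
  -- each nonzero `d A` has at least three edges of `F`
  have h2 : ∀ A ∈ T, 3 ≤ (F.filter (fun e => d A e ≠ 0)).card := by
    intro A hA
    have hA' := (Finset.mem_filter.1 hA).2
    let X : Finset V := univ.filter (fun v => cl v = A)
    have hX : univ.filter (fun e => (s e ∈ X) ≠ (t e ∈ X)) = F.filter (fun e => d A e ≠ 0) := by
      ext e
      simp only [Finset.mem_filter, Finset.mem_univ, true_and, X]
      have hd : d A e ≠ 0 ↔ ((cl (s e) = A) ≠ (cl (t e) = A)) := by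
        simp only [d]
        by_cases ha : cl (s e) = A <;> by_cases hb : cl (t e) = A <;>
          simp [ha, hb, CharTwo.add_self_eq_zero]
      rw [hd]
      constructor
      · intro h
        refine ⟨?_, h⟩
        by_contra hn
        apply h
        rw [hcl e hn]
      · exact fun h => h.2
    have hne1 : (F.filter (fun e => d A e ≠ 0)).card ≠ 1 := by
      rw [← hX]
      exact hb X
    have hne0 : (F.filter (fun e => d A e ≠ 0)).card ≠ 0 := by
      intro h0
      rw [Finset.card_eq_zero] at h0
      apply hA'
      funext e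
      by_contra hn
      by_cases he : e ∈ F
      · have : e ∈ F.filter (fun e => d A e ≠ 0) := Finset.mem_filter.2 ⟨he, hn⟩
        rw [h0] at this
        exact absurd this (Finset.notMem_empty _)
      · apply hn
        simp only [d, hcl e he]
        exact CharTwo.add_self_eq_zero _
    have hne2 : (F.filter (fun e => d A e ≠ 0)).card ≠ 2 := by
      intro h2
      obtain ⟨e, f, hef, hset⟩ := Finset.card_eq_two.1 h2
      have he : e ∈ F := by
        have : e ∈ F.filter (fun e => d A e ≠ 0) := by rw [hset]; simp
        exact (Finset.mem_filter.1 this).1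
      have hf : f ∈ F := by
        have : f ∈ F.filter (fun e => d A e ≠ 0) := by rw [hset]; simp
        exact (Finset.mem_filter.1 this).1
      apply hef
      apply hF e he f hf
      intro z hz
      have h3 := cut_orth s t X z hz
      have h4 : ∑ e with ((s e ∈ X) ≠ (t e ∈ X)), z e = z e + z f := by
        rw [hX, hset, Finset.sum_pair hef]
      rw [h4] at h3
      have h5 : ∀ a b : ZMod 2, a + b = 0 → a = b := by decide
      exact h5 _ _ h3
    omega
  -- each edge is in at most two of them
  have h3 : ∀ e ∈ F, (T.filter (fun A => d A e ≠ 0)).card ≤ 2 := by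
    intro e _
    refine le_trans (Finset.card_le_card (t := {cl (s e), cl (t e)}) ?_) Finset.card_le_two
    intro A hA
    have := (Finset.mem_filter.1 hA).2
    rw [Finset.mem_insert, Finset.mem_singleton]
    by_contra hn
    push Not at hn
    apply this
    simp only [d]
    rw [if_neg (Ne.symm hn.1), if_neg (Ne.symm hn.2), add_zero]
  have h4 : T.card * 3 ≤ F.card * 2 := by
    have := Finset.card_nsmul_le_sum T (fun A => (F.filter (fun e => d A e ≠ 0)).card) 3 h2
    rw [smul_eq_mul] at this
    refine le_trans this ?_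
    have hdc : ∑ A ∈ T, (F.filter (fun e => d A e ≠ 0)).card
        = ∑ e ∈ F, (T.filter (fun A => d A e ≠ 0)).card := by
      simp_rw [Finset.card_filter]
      exact Finset.sum_comm
    rw [hdc]
    have := Finset.sum_le_card_nsmul F (fun e => (T.filter (fun A => d A e ≠ 0)).card) 2 h3
    rwa [smul_eq_mul] at this
  omega

/-- The coordinate functionals on the cycle space. -/
def eps (e : E) : Dual (ZMod 2) (cyc s t) := (LinearMap.proj e).domRestrict (cyc s t)

omit [Fintype V] in
theorem eps_apply (e : E) (z : cyc s t) : eps s t e z = (z : E → ZMod 2) e := rfl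

/-- The rank condition. -/
theorem rank_cond [DecidableEq E] (hb : NoBridge s t) (F : Finset E)
    (hF : ∀ e ∈ F, ∀ f ∈ F, (∀ z ∈ cyc s t, z e = z f) → e = f) :
    F.card ≤ 3 * finrank (ZMod 2) (Submodule.span (ZMod 2) (eps s t '' F)) := by
  classical
  -- the map sending coefficients supported on `F` to functionals
  let L : (F → ZMod 2) →ₗ[ZMod 2] Dual (ZMod 2) (cyc s t) :=
    Fintype.linearCombination (ZMod 2) (fun e : F => eps s t e)
  have hr : LinearMap.range L = Submodule.span (ZMod 2) (eps s t '' F) := by
    rw [Fintype.range_linearCombination]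
    congr 1
    ext y
    simp
  have hrn := LinearMap.finrank_range_add_finrank_ker L
  rw [hr, Module.finrank_fintype_fun_eq_card, Fintype.card_coe] at hrn
  -- the kernel embeds in the space of cuts inside `F`
  let ext0 : (F → ZMod 2) →ₗ[ZMod 2] (E → ZMod 2) :=
    { toFun := fun c e => if h : e ∈ F then c ⟨e, h⟩ else 0
      map_add' := by
        intro a b; funext e; by_cases h : e ∈ F <;> simp [h]
      map_smul' := by
        intro r a; funext e; by_cases h : e ∈ F <;> simp [h] }
  have hinj : Function.Injective ext0 := by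
    intro a b hab
    funext e
    have := congrFun hab e.1
    simpa [ext0, e.2] using this
  let S : Submodule (ZMod 2) (E → ZMod 2) := (LinearMap.ker L).map ext0
  have hSk : finrank (ZMod 2) S = finrank (ZMod 2) (LinearMap.ker L) :=
    (LinearEquiv.finrank_eq (Submodule.equivMapOfInjective ext0 hinj (LinearMap.ker L))).symm
  have hS := cut_dim s t hb F hF S (by
    rintro _ ⟨c, hc, rfl⟩
    refine ⟨fun e he => by simp [ext0, he], fun z hz => ?_⟩
    have h1 : L c = 0 := hc
    have h2 : L c ⟨z, hz⟩ = 0 := by rw [h1]; rfl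
    rw [Fintype.linearCombination_apply, LinearMap.sum_apply] at h2
    rw [← h2]
    have h3 : ∑ e, ext0 c e * z e = ∑ e ∈ F, ext0 c e * z e := by
      symm
      apply Finset.sum_subset (Finset.subset_univ _)
      intro e _ he
      simp [ext0, he]
    rw [h3, ← Finset.sum_coe_sort F]
    refine Finset.sum_congr rfl (fun e _ => ?_)
    simp [ext0, eps_apply])
  rw [hSk] at hS
  omega

/-- **The 8-flow theorem.** -/
theorem eight_flow [DecidableEq E] (hb : NoBridge s t) :
    ∃ g : E → F3, (∀ e, g e ≠ 0) ∧ IsFlow s t g := by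
  classical
  -- representatives of the series classes
  let ser : Setoid E :=
    { r := fun e f => ∀ z ∈ cyc s t, z e = z f
      iseqv := ⟨fun _ _ _ => rfl, fun h z hz => (h z hz).symm,
        fun h1 h2 z hz => (h1 z hz).trans (h2 z hz)⟩ }
  let rep : E → E := fun e => (Quotient.mk ser e).out
  have hrep : ∀ e, ∀ z ∈ cyc s t, z (rep e) = z e := fun e => Quotient.mk_out (s := ser) e
  let R := {e : E // rep e = e}
  have hRinj : ∀ e f : R, (∀ z ∈ cyc s t, z e.1 = z f.1) → e = f := by
    intro e f h
    apply Subtype.ext
    rw [← e.2, ← f.2]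
    show (Quotient.mk ser e.1).out = (Quotient.mk ser f.1).out
    congr 1
    exact Quotient.sound h
  obtain ⟨κ, hκ⟩ := rado_horn (K := ZMod 2) 3 (fun e : R => eps s t e.1) (by
    intro J
    have h1 := rank_cond s t hb (J.image Subtype.val) (by
      intro e he f hf h
      obtain ⟨e', _, rfl⟩ := Finset.mem_image.1 he
      obtain ⟨f', _, rfl⟩ := Finset.mem_image.1 hf
      exact congrArg Subtype.val (hRinj e' f' h))
    rw [Finset.card_image_of_injective _ Subtype.val_injective] at h1
    have h2 : eps s t '' ((J.image Subtype.val : Finset E) : Set E) =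
        (fun e : R => eps s t e.1) '' (J : Set R) := by
      rw [Finset.coe_image, Set.image_image]
    rwa [h2] at h1)
  -- elements of the cycle space equal to one on each colour class
  have hz : ∀ i : Fin 3, ∃ z ∈ cyc s t, ∀ e : R, κ e = i → z e.1 = 1 := by
    intro i
    let L : cyc s t →ₗ[ZMod 2] ({e : R // κ e = i} → ZMod 2) :=
      LinearMap.pi (fun e => eps s t e.1.1)
    by_cases hm : (fun _ => 1 : {e : R // κ e = i} → ZMod 2) ∈ LinearMap.range L
    · obtain ⟨z, hz⟩ := hm
      refine ⟨z.1, z.2, fun e he => ?_⟩
      exact congrFun hz ⟨e, he⟩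
    · exfalso
      obtain ⟨ψ, hψ1, hψ2⟩ := Submodule.exists_le_ker_of_notMem hm
      let c : {e : R // κ e = i} → ZMod 2 := fun e => ψ (Pi.single e 1)
      have hψ : ∀ w : {e : R // κ e = i} → ZMod 2, ψ w = ∑ e, w e * c e := by
        intro w
        have : w = ∑ e, w e • (Pi.single e 1 : {e : R // κ e = i} → ZMod 2) := by
          funext x
          rw [Finset.sum_apply, Finset.sum_eq_single x]
          · rw [Pi.smul_apply, Pi.single_eq_same, smul_eq_mul, mul_one]
          · intro b _ hb
            rw [Pi.smul_apply, Pi.single_eq_of_ne (Ne.symm hb), smul_zero]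
          · intro h
            exact absurd (Finset.mem_univ x) h
        conv_lhs => rw [this]
        rw [map_sum]
        exact Finset.sum_congr rfl (fun e _ => by rw [map_smul]; rfl)
      have h1 : ∑ e, c e • eps s t e.1.1 = 0 := by
        apply LinearMap.ext
        intro z
        have h2 : ψ (L z) = 0 := hψ2 (LinearMap.mem_range_self L z)
        rw [hψ] at h2
        rw [LinearMap.sum_apply, LinearMap.zero_apply, ← h2]
        refine Finset.sum_congr rfl (fun e _ => ?_)
        rw [LinearMap.smul_apply, smul_eq_mul, mul_comm]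
        rfl
      have h3 := Fintype.linearIndependent_iff.1 (hκ i) c h1
      apply hψ1
      rw [hψ]
      refine Finset.sum_eq_zero (fun e _ => ?_)
      rw [h3 e, mul_zero]
  choose z hzc hz1 using hz
  refine ⟨fun e i => z i e, fun e he => ?_, fun v => ?_⟩
  · have hrr : rep (rep e) = rep e := by
      show (Quotient.mk ser (rep e)).out = (Quotient.mk ser e).out
      congr 1
      exact Quotient.sound (hrep e)
    have h1 := hz1 (κ ⟨rep e, hrr⟩) ⟨rep e, hrr⟩ rfl
    rw [hrep e _ (hzc _)] at h1
    have h2 := congrFun he (κ ⟨rep e, hrr⟩)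
    simp only [Pi.zero_apply] at h2
    rw [h2] at h1
    exact absurd h1 (by decide)
  · funext i
    have := hzc i v
    simpa [Finset.sum_apply] using this

end

end Pool.Agent.Helper98.CDC
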