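import Mathlib
import Pool.Agent.Helper98.CDC.Cubic
import Pool.Agent.Helper98.CDC.EightFlow
import Pool.Agent.Helper12.CDC8.Cubic
import Pool.Agent.Helper37.CDC8.Final

namespace Pool.Agent.Helper98.CDC

open Finset

open Classical in
theorem cubic_eight (V E : Type) [Fintype V] [Fintype E] [DecidableEq V] (s t : E → V)
    (hcub : ∀ v, (univ.filter (fun e => s e = v)).card + (univ.filter (fun e => t e = v)).card = 3)
    (hb : ∀ X : Finset V, (univ.filter (fun e => (s e ∈ X) ≠ (t e ∈ X))).card ≠ 1) :
    ∃ D : Fin 8 → Finset E,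
      (∀ i v, Even (((D i).filter (fun e => s e = v)).card +
        ((D i).filter (fun e => t e = v)).card)) ∧
      ∀ e, (univ.filter (fun i => e ∈ D i)).card = 2 := by
  obtain ⟨g, hg, hf⟩ := eight_flow s t hb
  obtain ⟨D, hD1, hD2, -⟩ := cubic_labels s t hcub g hg hf
  have hcard : Fintype.card (Fin 8) = Fintype.card F3 := by
    simp [F3, ZMod.card]
  let φ : Fin 8 ≃ F3 := Fintype.equivOfCardEq hcard
  refine ⟨fun i => D (φ i), fun i v => hD1 _ _, fun e => ?_⟩
  rw [← hD2 e]
  refine Finset.card_bij (fun i _ => φ i) ?_ ?_ ?_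
  · intro i hi
    exact Finset.mem_filter.2 ⟨Finset.mem_univ _, (Finset.mem_filter.1 hi).2⟩
  · intro i _ j _ hij
    exact φ.injective hij
  · intro a ha
    refine ⟨φ.symm a, Finset.mem_filter.2 ⟨Finset.mem_univ _, ?_⟩, φ.apply_symm_apply a⟩
    show e ∈ D (φ (φ.symm a))
    rw [φ.apply_symm_apply]
    exact (Finset.mem_filter.1 ha).2

theorem eightEven : Pool.Agent.Helper37.CDC8.EightEven := by
  classical
  intro V E _ _ _ s t hb
  obtain ⟨D, h1, h2⟩ := Pool.Agent.Helper12.CDC8.reduce_to_cubic
    (fun V E _ _ _ s t hcub hb => cubic_eight V E s t hcub hb) V E s t (by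
      intro X hX
      apply hb X
      rw [← hX]
      congr 1
      ext e
      simp)
  refine ⟨D, h1, fun e => ?_⟩
  rw [← h2 e, ← Set.ncard_coe_finset]
  congr 1
  ext i
  simp

/-- **The cycle double cover theorem.** -/
theorem cycle_double_cover {V E : Type*} [Finite V] [Finite E] (ends : E → Sym2 V)
    (hb : Pool.Agent.Helper37.CDC8.Bridgeless ends) :
    ∃ L : Fin 8 → List (Set E),
      (∀ i, ∀ C ∈ L i, Pool.Agent.Helper37.CDC8.IsCircuit ends C) ∧
      (∀ i, (L i).Pairwise Disjoint) ∧ ∀ e, {i | ∃ C ∈ L i, e ∈ C}.ncard = 2 :=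
  Pool.Agent.Helper37.CDC8.packaging eightEven ends hb

/-- The lifting theorem for cubic graphs, in terms of unordered ends. -/
theorem lifting {V E : Type*} [Finite V] [Finite E] (ends : E → Sym2 V)
    (hloop : ∀ e, ¬ (ends e).IsDiag) (hcub : ∀ v, {e | v ∈ ends e}.ncard = 3)
    (g : E → F3) (hg : ∀ e, g e ≠ 0) (hf : ∀ v, ∑ᶠ e ∈ {e | v ∈ ends e}, g e = 0) :
    ∃ D : F3 → Set E, (∀ x v, Even {e | e ∈ D x ∧ v ∈ ends e}.ncard) ∧
      ∀ e, ∃ x, {y | e ∈ D y} = {x, x + g e} := by
  classical
  have := Fintype.ofFinite V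
  have := Fintype.ofFinite E
  have hst : ∀ e, ∃ p : V × V, ends e = s(p.1, p.2) := by
    intro e
    induction h : ends e using Sym2.ind with
    | _ a b => exact ⟨(a, b), rfl⟩
  choose p hp using hst
  let s : E → V := fun e => (p e).1
  let t : E → V := fun e => (p e).2
  have hne : ∀ e, s e ≠ t e := by
    intro e h
    apply hloop e
    rw [hp e]
    exact h
  have hmem : ∀ e v, v ∈ ends e ↔ (s e = v ∨ t e = v) := by
    intro e v
    rw [hp e, Sym2.mem_iff]
    constructor
    · rintro (h | h)
      · exact Or.inl h.symm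
      · exact Or.inr h.symm
    · rintro (h | h)
      · exact Or.inl h.symm
      · exact Or.inr h.symm
  have hsplit : ∀ (P : E → Prop) (v : V), {e | P e ∧ v ∈ ends e}.ncard =
      (univ.filter (fun e => P e ∧ s e = v)).card + (univ.filter (fun e => P e ∧ t e = v)).card := by
    intro P v
    rw [← Finset.card_union_of_disjoint, ← Set.ncard_coe_finset]
    · congr 1
      ext e
      simp only [Set.mem_ofPred_eq, hmem, Finset.coe_union, Finset.coe_filter, Finset.mem_univ,
        true_and, Set.mem_union]
      tauto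
    · rw [Finset.disjoint_filter]
      rintro e _ ⟨_, h1⟩ ⟨_, h2⟩
      exact hne e (h1.trans h2.symm)
  have hflow : IsFlow s t g := by
    intro v
    rw [← hf v, ← Finset.sum_union]
    · rw [← finsum_mem_coe_finset]
      refine finsum_mem_congr ?_ (fun _ _ => rfl)
      ext e
      simp [hmem]
    · rw [Finset.disjoint_filter]
      rintro e _ h1 h2
      exact hne e (h1.trans h2.symm)
  have hcub' : ∀ v, (univ.filter (fun e => s e = v)).card +
      (univ.filter (fun e => t e = v)).card = 3 := by
    intro v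
    have h1 := hsplit (fun _ => True) v
    simp only [true_and] at h1
    rw [← h1, hcub]
  obtain ⟨D, h1, h2, h3⟩ := cubic_labels s t hcub' g hg hflow
  refine ⟨fun x => (D x : Set E), fun x v => ?_, fun e => ?_⟩
  · have h4 := hsplit (fun e => e ∈ D x) v
    simp only [Finset.mem_coe]
    rw [h4]
    have h5 := h1 x v
    convert h5 using 2
    · congr 1
      ext e
      simp
    · congr 1
      ext e
      simp
  · have h4 := h2 e
    have h5 : (univ.filter (fun a => e ∈ D a)).Nonempty := by
      rw [← Finset.card_pos, h4]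
      norm_num
    obtain ⟨x, hx⟩ := h5
    have hx' := (Finset.mem_filter.1 hx).2
    refine ⟨x, ?_⟩
    have hxg : x ≠ x + g e := by
      intro h
      apply hg e
      have : x + 0 = x + g e := by rw [add_zero]; exact h
      exact (add_left_cancel this).symm
    have h6 : ({x, x + g e} : Finset F3) = univ.filter (fun a => e ∈ D a) := by
      apply Finset.eq_of_subset_of_card_le
      · intro y hy
        rw [Finset.mem_insert, Finset.mem_singleton] at hy
        rcases hy with rfl | rfl
        · exact hx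
        · exact Finset.mem_filter.2 ⟨Finset.mem_univ _, h3 e x hx'⟩
      · rw [h4, Finset.card_pair hxg]
    ext y
    have h7 : y ∈ ({x, x + g e} : Finset F3) ↔ y ∈ univ.filter (fun a => e ∈ D a) := by rw [h6]
    rw [Finset.mem_insert, Finset.mem_singleton, Finset.mem_filter] at h7
    simp only [Set.mem_ofPred_eq, Finset.mem_coe, Set.mem_insert_iff, Set.mem_singleton_iff]
    constructor
    · intro h
      exact h7.2 ⟨Finset.mem_univ _, h⟩
    · intro h
      exact (h7.1 h).2

end Pool.Agent.Helper98.CDC
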